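import Mathlib
import Pool.Agent.Helper86.PropB.Main

/-!
# The complex Euclidean plane fails Lindenstrauss' property B

The question (problem `MP_152ea0_an`, Q1) is whether every finite-dimensional Banach space `Y` has
property B, that is, whether for every Banach space `X` the norm-attaining operators `X → Y` are
dense.  We show that over the complex scalars the answer is no, and that already the complex
Euclidean plane `ℓ₂²` fails property B.  The domain is `X = L¹(𝕋)/H¹₀`, the predual of `H^∞`.

The space `X = {0}` has no vector of norm one, so that `NA({0}, Y)` is empty; it is excluded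
throughout: property B quantifies over the nonzero Banach spaces `X` only, and the space `X` in the
last part is nonzero.
-/

set_option autoImplicit false

namespace Pool.Agent.Results.MP_152ea0_an.ComplexPlaneFails

open Pool.Agent.Helper86.PropB

/-- The set `NA(X, Y)` of norm-attaining operators: those `T` for which there is a vector `x` of
norm one with `‖T x‖ = ‖T‖`. -/
def NA (𝕜 X Y : Type) [RCLike 𝕜] [NormedAddCommGroup X] [NormedSpace 𝕜 X]
    [NormedAddCommGroup Y] [NormedSpace 𝕜 Y] : Set (X →L[𝕜] Y) :=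
  {T | ∃ x : X, ‖x‖ = 1 ∧ ‖T x‖ = ‖T‖}

/-- Lindenstrauss' property B for the range space `Y`, over the scalar field `𝕜`: for every nonzero
Banach space `X` the norm-attaining operators are dense in the space of all bounded operators. -/
def PropertyB (𝕜 Y : Type) [RCLike 𝕜] [NormedAddCommGroup Y] [NormedSpace 𝕜 Y] : Prop :=
  ∀ (X : Type) [NormedAddCommGroup X] [NormedSpace 𝕜 X] [CompleteSpace X] [Nontrivial X],
    Dense (NA 𝕜 X Y)

theorem nontrivial_XX : Nontrivial XX := by
  obtain ⟨T, hT⟩ := exists_T0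
  obtain ⟨x, -, hx2⟩ := test_element 1 0 (by simp)
  have h := hT x (!₂[1, 0] : EuclideanSpace ℂ (Fin 2))
  refine ⟨⟨Q x, 0, fun h0 => ?_⟩⟩
  rw [h0, map_zero, inner_zero_right] at h
  have h3 : (!₂[(1 : ℂ), 0] : EuclideanSpace ℂ (Fin 2)) 0 = 1 := by simp
  have h4 : (!₂[(1 : ℂ), 0] : EuclideanSpace ℂ (Fin 2)) 1 = 0 := by simp
  rw [h3, h4, hx2] at h
  norm_num at h

theorem key_space :
    ∃ (X : Type) (_ : NormedAddCommGroup X) (_ : NormedSpace ℂ X), CompleteSpace X ∧
      Nontrivial X ∧
      (∀ S ∈ NA ℂ X (EuclideanSpace ℂ (Fin 2)),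
        Module.finrank ℂ (LinearMap.range (S : X →ₗ[ℂ] EuclideanSpace ℂ (Fin 2))) ≤ 1) ∧
      (∃ T : X →L[ℂ] EuclideanSpace ℂ (Fin 2),
        ∀ S ∈ NA ℂ X (EuclideanSpace ℂ (Fin 2)), 1 / 2 ≤ ‖T - S‖) := by
  refine ⟨XX, inferInstance, inferInstance, inferInstance, nontrivial_XX, ?_, ?_⟩
  · rintro S ⟨ξ, hξ, hS⟩
    obtain ⟨v', hv', hS'⟩ := rank_one S ξ hξ hS
    have h2 : Module.finrank ℂ (EuclideanSpace ℂ (Fin 2)) = 2 := by simp
    have hlt : LinearMap.range (S : XX →ₗ[ℂ] EuclideanSpace ℂ (Fin 2)) < ⊤ := by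
      refine lt_of_le_of_ne le_top fun htop => ?_
      have hmem : v' ∈ LinearMap.range (S : XX →ₗ[ℂ] EuclideanSpace ℂ (Fin 2)) := by
        rw [htop]; exact Submodule.mem_top
      obtain ⟨y, hy⟩ := hmem
      have h := hS' y
      have hy' : S y = v' := hy
      rw [hy', inner_self_eq_norm_sq_to_K, hv'] at h
      simp at h
    have := Submodule.finrank_lt hlt.ne
    omega
  · obtain ⟨T, hT⟩ := main_T0
    exact ⟨T, fun S hS => hT S hS⟩

theorem not_propertyB : ¬ PropertyB ℂ (EuclideanSpace ℂ (Fin 2)) := by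
  intro h
  obtain ⟨X, i1, i2, i3, i4, -, T, hT⟩ := key_space
  have hd := h X
  obtain ⟨S, hS, hdist⟩ := Metric.dense_iff.1 hd T (1 / 2) (by norm_num)
  have h1 := hT S hdist
  rw [Metric.mem_ball, dist_comm, dist_eq_norm] at hS
  linarith

/-- **The answer to Q1 is negative over the complex scalars.**  Not every finite-dimensional
complex Banach space has property B; the complex Euclidean plane fails it.  There is one nonzero
complex Banach space `X` such that every norm-attaining operator from `X` to the complex Euclidean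
plane has rank at most one, and there is an operator at distance at least `1/2` from all
norm-attaining operators. -/
theorem result :
    (¬ ∀ (Y : Type) [NormedAddCommGroup Y] [NormedSpace ℂ Y] [FiniteDimensional ℂ Y],
      PropertyB ℂ Y) ∧
    (¬ PropertyB ℂ (EuclideanSpace ℂ (Fin 2))) ∧
    (∃ (X : Type) (_ : NormedAddCommGroup X) (_ : NormedSpace ℂ X), CompleteSpace X ∧
      Nontrivial X ∧
      (∀ S ∈ NA ℂ X (EuclideanSpace ℂ (Fin 2)),
        Module.finrank ℂ (LinearMap.range (S : X →ₗ[ℂ] EuclideanSpace ℂ (Fin 2))) ≤ 1) ∧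
      (∃ T : X →L[ℂ] EuclideanSpace ℂ (Fin 2),
        ∀ S ∈ NA ℂ X (EuclideanSpace ℂ (Fin 2)), 1 / 2 ≤ ‖T - S‖)) :=
  ⟨fun h => not_propertyB (h (EuclideanSpace ℂ (Fin 2))), not_propertyB, key_space⟩

end Pool.Agent.Results.MP_152ea0_an.ComplexPlaneFails
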