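import Mathlib
import Pool.Agent.Helper415.PB.D
import Pool.Agent.Helper415.PB.Main

/-!
Complex scalars: no finite-dimensional strictly convex Banach space `Y` with `dim Y ≥ 2` has
property B; in particular the two-dimensional Hilbert space fails property B. One nonzero Banach
space `X` works for all `Y`: every norm attaining operator from `X` to a finite-dimensional strictly
convex space has rank at most one, and some operator has positive distance to all of them.

The space `X = {0}` has no vector of norm one, so that no operator defined on it attains its norm;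
it is excluded throughout: property B quantifies over the nonzero Banach spaces `X`, and the space
`X` in the last part is nonzero.

Idea. `X = L_1(T) / H^1_0`, so that `X^* = H^∞`. If `T : X → Y` attains its norm `1` at `x`, and
`h_n` are representatives of `x` with `‖h_n‖_1 → 1`, then for real `|G| ≤ 1` the vectors
`T((1 ± G) h_n) = T x ± T(G h_n)` have norm at most `1 ± ∫ G |h_n| + o(1)`, so strict convexity
forces `T(G h_n)` to be nearly parallel to `T x`. Hence, if `ψ ∈ Y^*` kills `T x` and
`w = ψ ∘ T ∈ H^∞`, one gets `∫ |w| |h_n| → 0`. If `w ≠ 0`, Jensen's inequality gives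
`∫ log |w| > - ∞`, so there are polynomials `g` with `|g|` close to `(|w|/2)^s` and `g(0)` close to
`1`; then `g x = [g h_n]` is small in norm, but `g x` is close to `x`, a contradiction.
So `ψ ∘ T = 0` for all such `ψ`, i.e. the rank of `T` is at most one.
-/

set_option autoImplicit false

namespace Pool.Agent.Results.MP_152ea0_an.ComplexStrictlyConvex

/-- the bounded linear operator `T` attains its norm -/
def NormAttaining {𝕜 : Type} [RCLike 𝕜] {X Y : Type} [NormedAddCommGroup X] [NormedSpace 𝕜 X]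
    [NormedAddCommGroup Y] [NormedSpace 𝕜 Y] (T : X →L[𝕜] Y) : Prop :=
  ∃ x : X, ‖x‖ = 1 ∧ ‖T x‖ = ‖T‖

/-- Lindenstrauss' property B for a normed space `Y` over `𝕜`: for every nonzero Banach space `X`
over `𝕜` the norm attaining operators are dense in the space of bounded linear operators
`X → Y`. -/
def PropertyB (𝕜 : Type) [RCLike 𝕜] (Y : Type) [NormedAddCommGroup Y] [NormedSpace 𝕜 Y] : Prop :=
  ∀ (X : Type) [NormedAddCommGroup X] [NormedSpace 𝕜 X] [CompleteSpace X] [Nontrivial X],
    Dense {T : X →L[𝕜] Y | NormAttaining T}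

/-- **Main result.** -/
theorem result :
    (∀ (Y : Type) [NormedAddCommGroup Y] [NormedSpace ℂ Y] [FiniteDimensional ℂ Y]
      [StrictConvexSpace ℝ Y], 2 ≤ Module.finrank ℂ Y → ¬ PropertyB ℂ Y) ∧
    ¬ PropertyB ℂ (EuclideanSpace ℂ (Fin 2)) ∧
    ∃ (X : Type) (_ : NormedAddCommGroup X) (_ : NormedSpace ℂ X) (_ : CompleteSpace X)
      (_ : Nontrivial X),
      ∀ (Y : Type) [NormedAddCommGroup Y] [NormedSpace ℂ Y] [FiniteDimensional ℂ Y]
        [StrictConvexSpace ℝ Y],
        (∀ T : X →L[ℂ] Y, NormAttaining T →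
          Module.finrank ℂ (LinearMap.range (T : X →ₗ[ℂ] Y)) ≤ 1) ∧
        (2 ≤ Module.finrank ℂ Y → ¬ Dense {T : X →L[ℂ] Y | NormAttaining T}) := by
  have main : ∃ (X : Type) (_ : NormedAddCommGroup X) (_ : NormedSpace ℂ X) (_ : CompleteSpace X)
      (_ : Nontrivial X),
      ∀ (Y : Type) [NormedAddCommGroup Y] [NormedSpace ℂ Y] [FiniteDimensional ℂ Y]
        [StrictConvexSpace ℝ Y],
        (∀ T : X →L[ℂ] Y, NormAttaining T →
          Module.finrank ℂ (LinearMap.range (T : X →ₗ[ℂ] Y)) ≤ 1) ∧
        (2 ≤ Module.finrank ℂ Y → ¬ Dense {T : X →L[ℂ] Y | NormAttaining T}) := by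
    obtain ⟨X, i1, i2, i3, j, hjd, hj1, hj2, hj3⟩ := H415PB.lemD
    have hnt : Nontrivial X := by
      refine ⟨⟨j 1, 0, fun h0 => ?_⟩⟩
      have h := H415PB.j_indep j hj3 1 0 (by
        rw [one_smul, zero_smul, add_zero]
        exact h0)
      exact one_ne_zero h.1
    refine ⟨X, i1, i2, i3, hnt, ?_⟩
    intro Y _ _ _ _
    refine ⟨fun T hT => ?_, fun hY => H415PB.not_dense j hj1 hj2 hj3 hjd hY⟩
    obtain ⟨y, hy⟩ := H415PB.rank_le_one j hj1 hj2 hj3 hjd T hT
    have hle : LinearMap.range (T : X →ₗ[ℂ] Y) ≤ Submodule.span ℂ {y} := by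
      rintro _ ⟨x', rfl⟩
      exact hy x'
    have h1 : Module.finrank ℂ (Submodule.span ℂ ({y} : Set Y)) ≤ 1 := by
      have h2 := finrank_span_le_card (R := ℂ) ({y} : Set Y)
      simpa using h2
    exact (Submodule.finrank_mono hle).trans h1
  have hB : ∀ (Y : Type) [NormedAddCommGroup Y] [NormedSpace ℂ Y] [FiniteDimensional ℂ Y]
      [StrictConvexSpace ℝ Y], 2 ≤ Module.finrank ℂ Y → ¬ PropertyB ℂ Y := by
    intro Y _ _ _ _ hY h
    obtain ⟨X, i1, i2, i3, i4, hX⟩ := main
    exact (hX Y).2 hY (h X)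
  refine ⟨hB, hB _ ?_, main⟩
  simp

end Pool.Agent.Results.MP_152ea0_an.ComplexStrictlyConvex
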